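import Pool.Agent.Leo3.Stmts
import Pool.Agent.Helper85_Leo.Units

/-!
Squad leo3, module LEO: the vanishing implies Leopoldt's conjecture at 3.
-/

set_option autoImplicit false

open NumberField IsDedekindDomain WithZero Module Filter Topology
open Pool.Agent.Helper85_Leo

namespace Pool.Agent.Leo3.H93

section inloc

variable {L : Type} [Field L] {φ : L →+* Om}

theorem InLoc.map (x : L) : InLoc φ (φ x) := fun _ h => h x

theorem InLoc.mul {s t : Om} (hs : InLoc φ s) (ht : InLoc φ t) : InLoc φ (s * t) := by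
  intro ρ h
  rw [map_mul, hs ρ h, ht ρ h]

theorem InLoc.inv {s : Om} (hs : InLoc φ s) : InLoc φ s⁻¹ := by
  intro ρ h
  rw [map_inv₀, hs ρ h]

theorem InLoc.pow {s : Om} (hs : InLoc φ s) (n : ℕ) : InLoc φ (s ^ n) := by
  intro ρ h
  rw [map_pow, hs ρ h]

end inloc

theorem crt_iter (hcrt : CrtStmt) {L : Type} [Field L] (φ : L →+* Om) (n : ℕ) :
    ∀ w : Om, InLoc φ w → ‖w - 1‖ ≤ (3 : ℝ)⁻¹ ^ (n + 2) → ∃ t : Om, InLoc φ t ∧ t ^ (3 ^ n) = w := by
  induction n with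
  | zero =>
    intro w hw _
    exact ⟨w, hw, by simp⟩
  | succ n ih =>
    intro w hw hn
    obtain ⟨w', h1, h2, h3⟩ := hcrt L φ w hw (n + 1 + 2) (by omega) hn
    obtain ⟨t, h4, h5⟩ := ih w' h1 (by
      have : n + 1 + 2 - 1 = n + 2 := by omega
      rwa [this] at h3)
    refine ⟨t, h4, ?_⟩
    rw [pow_succ, pow_mul, h5, h2]

theorem norm_three_pow (k : ℕ) : ‖(3 : Om) ^ k‖ = (3 : ℝ)⁻¹ ^ k := by
  have h1 : (3 : Om) = algebraMap ℚ_[3] Om (3 : ℚ_[3]) :=
    (map_ofNat (algebraMap ℚ_[3] Om) 3).symm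
  have h2 : ‖(3 : ℚ_[3])‖ = (3 : ℝ)⁻¹ := by simpa using Padic.norm_p (p := 3)
  rw [norm_pow, h1, PadicAlgCl.norm_extends, h2]

section numberfield

variable {L : Type} [Field L] [NumberField L]

theorem norm_sub_one_le (φ : L →+* Om) (u : 𝓞 L) (k : ℕ) (h : ((3 : ℕ) : 𝓞 L) ^ k ∣ u - 1) :
    ‖φ (u : L) - 1‖ ≤ (3 : ℝ)⁻¹ ^ k := by
  obtain ⟨y, hy⟩ := h
  have h1 : φ (u : L) - 1 = (3 : Om) ^ k * φ (y : L) := by
    have h2 : algebraMap (𝓞 L) L (u - 1) = algebraMap (𝓞 L) L (((3 : ℕ) : 𝓞 L) ^ k * y) := by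
      rw [hy]
    have h3 := congrArg φ h2
    rw [map_sub, map_one, map_sub, map_one, map_mul, map_pow, map_natCast, map_mul, map_pow,
      map_natCast] at h3
    exact_mod_cast h3
  rw [h1, norm_mul, norm_three_pow]
  have h2 : ‖φ (y : L)‖ ≤ 1 := by
    exact norm_embedding_le_one φ y
  calc (3 : ℝ)⁻¹ ^ k * ‖φ (y : L)‖ ≤ (3 : ℝ)⁻¹ ^ k * 1 :=
        mul_le_mul_of_nonneg_left h2 (by positivity)
    _ = _ := mul_one _

theorem valCube_unit (u : (𝓞 L)ˣ) : ValCube ((u : 𝓞 L) : L) := by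
  intro q _
  refine ⟨1, ?_⟩
  rw [one_pow]
  have h1 := q.valuation_le_one (K := L) (u : 𝓞 L)
  have h2 := q.valuation_le_one (K := L) ((u⁻¹ : (𝓞 L)ˣ) : 𝓞 L)
  have h3 : q.valuation L (algebraMap (𝓞 L) L (u : 𝓞 L)) *
      q.valuation L (algebraMap (𝓞 L) L ((u⁻¹ : (𝓞 L)ˣ) : 𝓞 L)) = 1 := by
    rw [← map_mul, ← map_mul, Units.mul_inv, map_one, map_one]
  refine le_antisymm h1 ?_
  by_contra hlt
  push Not at hlt
  have h4 : q.valuation L (algebraMap (𝓞 L) L (u : 𝓞 L)) *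
      q.valuation L (algebraMap (𝓞 L) L ((u⁻¹ : (𝓞 L)ˣ) : 𝓞 L)) < 1 :=
    mul_lt_one_of_lt_of_le hlt h2
  exact absurd h3 h4.ne

theorem unit_cube (g : (𝓞 L)ˣ) (t : L) (ht : t ^ 3 = ((g : 𝓞 L) : L)) :
    ∃ g' : (𝓞 L)ˣ, ((g' : 𝓞 L) : L) = t ∧ g' ^ 3 = g := by
  have hint : IsIntegral ℤ t := by
    refine IsIntegral.of_pow (n := 3) (by norm_num) ?_
    rw [ht]
    exact RingOfIntegers.isIntegral_coe _
  let t' : 𝓞 L := ⟨t, hint⟩
  have h1 : t' ^ 3 = (g : 𝓞 L) := by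
    apply RingOfIntegers.coe_injective
    rw [map_pow]
    exact ht
  have h2 : t' * (t' ^ 2 * ((g⁻¹ : (𝓞 L)ˣ) : 𝓞 L)) = 1 := by
    rw [← mul_assoc, ← pow_succ', h1, Units.mul_inv]
  let g' : (𝓞 L)ˣ := ⟨t', t' ^ 2 * ((g⁻¹ : (𝓞 L)ˣ) : 𝓞 L), h2, by rw [mul_comm]; exact h2⟩
  refine ⟨g', rfl, ?_⟩
  apply Units.ext
  exact h1

/-- extraction of a `3^N`-th root -/
theorem root_unit (hmu : NoMu L) (hW : W L) (N : ℕ) :
    ∀ u : (𝓞 L)ˣ, (∀ φ : L →+* Om, ∃ t, InLoc φ t ∧ t ^ (3 ^ N) = φ ((u : 𝓞 L) : L)) →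
      ∃ g : (𝓞 L)ˣ, g ^ (3 ^ N) = u := by
  induction N with
  | zero => intro u _; exact ⟨u, by simp⟩
  | succ N ih =>
    intro u hu
    have hloc : LocCube ((u : 𝓞 L) : L) := by
      intro φ
      obtain ⟨t, h1, h2⟩ := hu φ
      refine ⟨t ^ (3 ^ N), InLoc.pow h1 _, ?_⟩
      rw [← pow_mul, ← pow_succ, h2]
    obtain ⟨t, ht⟩ := hW ((u : 𝓞 L) : L) (by
      intro h0
      have : (u : 𝓞 L) = 0 := by
        apply RingOfIntegers.ext
        simpa using h0
      exact u.ne_zero this) (valCube_unit u) hloc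
    obtain ⟨g', hg', hg3⟩ := unit_cube u t ht
    obtain ⟨g, hg⟩ := ih g' (by
      intro φ
      obtain ⟨s, h1, h2⟩ := hu φ
      refine ⟨s, h1, ?_⟩
      rw [hg']
      -- (φ t / s^(3^N))^3 = 1
      have h3 : (s ^ (3 ^ N)) ^ 3 = (φ t) ^ 3 := by
        rw [← pow_mul, ← pow_succ, h2, ← ht, map_pow]
      have hs0 : s ^ (3 ^ N) ≠ 0 := by
        intro h0
        rw [h0] at h3
        have h4 : φ t = 0 := by
          have : (φ t) ^ 3 = 0 := by rw [← h3]; simp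
          exact pow_eq_zero_iff (by norm_num) |>.1 this
        have h5 : t = 0 := (map_eq_zero φ).1 h4
        rw [h5] at ht
        have h6 : ((u : 𝓞 L) : L) = 0 := by rw [← ht]; simp
        have : (u : 𝓞 L) = 0 := by
          apply RingOfIntegers.ext
          simpa using h6
        exact u.ne_zero this
      have h4 := hmu φ (φ t * (s ^ (3 ^ N))⁻¹)
        (InLoc.mul (InLoc.map t) (InLoc.inv (InLoc.pow h1 _))) (by
          rw [mul_pow, inv_pow, h3, mul_inv_cancel₀]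
          rw [← h3]
          exact pow_ne_zero _ hs0)
      field_simp at h4
      exact h4.symm)
    refine ⟨g, ?_⟩
    rw [pow_succ, pow_mul, hg, hg3]

/-- coordinates of a unit modulo torsion -/
noncomputable def crd (u : (𝓞 L)ˣ) (i : Fin (Units.rank L)) : ℤ :=
  (Units.exist_unique_eq_mul_prod L u).choose.2 i

theorem crd_spec (u : (𝓞 L)ˣ) : ∃ ζ : Units.torsion L,
    u = ζ * ∏ i, Units.fundSystem L i ^ crd u i :=
  ⟨_, (Units.exist_unique_eq_mul_prod L u).choose_spec.1⟩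

theorem crd_eq (u : (𝓞 L)ˣ) (ζ : Units.torsion L) (f : Fin (Units.rank L) → ℤ)
    (h : u = ζ * ∏ i, Units.fundSystem L i ^ f i) : crd u = f := by
  have h1 := (Units.exist_unique_eq_mul_prod L u).choose_spec.2 (ζ, f) h
  funext i
  show (Units.exist_unique_eq_mul_prod L u).choose.2 i = f i
  rw [← h1]

theorem crd_mul (u v : (𝓞 L)ˣ) (i : Fin (Units.rank L)) : crd (u * v) i = crd u i + crd v i := by
  obtain ⟨ζ, h1⟩ := crd_spec u
  obtain ⟨ξ, h2⟩ := crd_spec v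
  have h3 := crd_eq (u * v) (ζ * ξ) (fun i => crd u i + crd v i) (by
    have e : ∏ i, Units.fundSystem L i ^ (crd u i + crd v i)
        = (∏ i, Units.fundSystem L i ^ crd u i) * ∏ i, Units.fundSystem L i ^ crd v i := by
      rw [← Finset.prod_mul_distrib]
      exact Finset.prod_congr rfl fun i _ => zpow_add _ _ _
    rw [e]
    calc u * v = (ζ * ∏ i, Units.fundSystem L i ^ crd u i) *
          (ξ * ∏ i, Units.fundSystem L i ^ crd v i) := by rw [← h1, ← h2]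
      _ = _ := by
        push_cast
        exact mul_mul_mul_comm _ _ _ _)
  rw [h3]

theorem crd_one (i : Fin (Units.rank L)) : crd (1 : (𝓞 L)ˣ) i = 0 := by
  have := crd_mul (1 : (𝓞 L)ˣ) 1 i
  rw [mul_one] at this
  omega

noncomputable def crdHom (i : Fin (Units.rank L)) : (𝓞 L)ˣ →* Multiplicative ℤ where
  toFun u := Multiplicative.ofAdd (crd u i)
  map_one' := by rw [crd_one]; rfl
  map_mul' := by intro u v; rw [crd_mul]; rfl

theorem crd_zpow (u : (𝓞 L)ˣ) (k : ℤ) (i : Fin (Units.rank L)) : crd (u ^ k) i = k * crd u i := by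
  have h := map_zpow (crdHom i) u k
  have h2 := congrArg Multiplicative.toAdd h
  have h3 : Multiplicative.toAdd (crdHom i u ^ k) = k * crd u i := by
    rw [toAdd_zpow, smul_eq_mul]
    rfl
  rw [← h3, ← h2]
  rfl

theorem crd_prod {n : ℕ} (ε : Fin n → (𝓞 L)ˣ) (c : Fin n → ℤ) (i : Fin (Units.rank L)) :
    crd (∏ j, ε j ^ c j) i = ∑ j, c j * crd (ε j) i := by
  have h := map_prod (crdHom i) (fun j => ε j ^ c j) Finset.univ
  have h2 := congrArg Multiplicative.toAdd h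
  rw [toAdd_prod] at h2
  have h3 : Multiplicative.toAdd (crdHom i (∏ j, ε j ^ c j)) = crd (∏ j, ε j ^ c j) i := rfl
  rw [h3] at h2
  rw [h2]
  refine Finset.sum_congr rfl fun j _ => ?_
  rw [← crd_zpow]
  rfl

theorem crd_torsion (u : (𝓞 L)ˣ) (h : ∀ i, crd u i = 0) : ∃ k : ℕ, 0 < k ∧ u ^ k = 1 := by
  obtain ⟨ζ, h1⟩ := crd_spec u
  have h2 : ∏ i, Units.fundSystem L i ^ crd u i = 1 := by
    apply Finset.prod_eq_one
    intro i _
    rw [h i, zpow_zero]
  rw [h2, mul_one] at h1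
  have h4 : u ∈ Units.torsion L := by rw [h1]; exact ζ.2
  have h5 : IsOfFinOrder u := h4
  exact isOfFinOrder_iff_pow_eq_one.1 h5

end numberfield

theorem nonarch_sub (x y : PadicInt 3) : ‖x - y‖ ≤ max ‖x‖ ‖y‖ := by
  rw [sub_eq_add_neg, ← norm_neg y]
  exact PadicInt.nonarchimedean _ _

theorem leo (hcrt : CrtStmt) : LeoStmt := by
  intro L _ _ hmu hW n ε _ hind a m hm hdiv
  -- approximating indices
  have hK : ∀ N : ℕ, ∃ K₀ : ℕ, ∀ k, K₀ ≤ k → ∀ i, ‖((m k i : ℤ) : PadicInt 3) - a i‖ ≤ (3 : ℝ) ^ (-(N : ℤ)) := by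
    intro N
    have h1 : ∀ i, ∀ᶠ k in atTop, ‖((m k i : ℤ) : PadicInt 3) - a i‖ ≤ (3 : ℝ) ^ (-(N : ℤ)) := by
      intro i
      have h2 := (hm i).sub_const (a i)
      rw [sub_self] at h2
      have h3 := h2.norm
      rw [norm_zero] at h3
      exact (h3.eventually (gt_mem_nhds (by positivity : (0 : ℝ) < (3 : ℝ) ^ (-(N : ℤ))))).mono
        (fun k hk => le_of_lt hk)
    have h4 := eventually_all.2 h1
    exact eventually_atTop.1 h4
  choose K₀ hK₀ using hK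
  -- the root extraction
  have hroot : ∀ N : ℕ, ∃ g : (𝓞 L)ˣ, g ^ (3 ^ N) = ∏ i, ε i ^ m (K₀ N) i := by
    intro N
    apply root_unit hmu hW
    intro φ
    obtain ⟨k, hk1, hk2⟩ := ((hdiv (N + 2)).and (eventually_ge_atTop (K₀ N))).exists
    have hc : ∀ i, ∃ c : ℤ, m k i = m (K₀ N) i + 3 ^ N * c := by
      intro i
      have h1 := hK₀ N k hk2 i
      have h2 := hK₀ N (K₀ N) le_rfl i
      have h3 : ‖((m k i - m (K₀ N) i : ℤ) : PadicInt 3)‖ ≤ (3 : ℝ) ^ (-(N : ℤ)) := by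
        have e : ((m k i - m (K₀ N) i : ℤ) : PadicInt 3)
            = (((m k i : ℤ) : PadicInt 3) - a i) - (((m (K₀ N) i : ℤ) : PadicInt 3) - a i) := by
          push_cast; ring
        rw [e]
        exact (nonarch_sub _ _).trans (max_le h1 h2)
      have h4 := (PadicInt.norm_int_le_pow_iff_dvd (p := 3) (k := m k i - m (K₀ N) i) (n := N)).1
        (by simpa using h3)
      obtain ⟨c, hc⟩ := h4
      refine ⟨c, ?_⟩
      have : m k i - m (K₀ N) i = 3 ^ N * c := by simpa using hc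
      linarith
    choose c hc using hc
    have hprod : ∏ i, ε i ^ m k i = (∏ i, ε i ^ m (K₀ N) i) * (∏ i, ε i ^ c i) ^ (3 ^ N) := by
      rw [← Finset.prod_pow, ← Finset.prod_mul_distrib]
      refine Finset.prod_congr rfl fun i _ => ?_
      rw [hc i, zpow_add, ← zpow_natCast (ε i ^ c i), ← zpow_mul]
      congr 2
      push_cast
      ring
    have hnorm := norm_sub_one_le φ _ _ hk1
    obtain ⟨t, ht1, ht2⟩ := crt_iter hcrt φ N _ (InLoc.map _) hnorm
    refine ⟨t * (φ (((∏ i, ε i ^ c i : (𝓞 L)ˣ) : 𝓞 L) : L))⁻¹, InLoc.mul ht1 (InLoc.inv (InLoc.map _)), ?_⟩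
    rw [mul_pow, ht2, hprod]
    have h0 : φ (((∏ i, ε i ^ c i : (𝓞 L)ˣ) : 𝓞 L) : L) ≠ 0 := by
      rw [map_ne_zero]
      intro h0
      have : ((∏ i, ε i ^ c i : (𝓞 L)ˣ) : 𝓞 L) = 0 := by
        apply RingOfIntegers.ext
        simpa using h0
      exact (Units.ne_zero _) this
    have e1 : φ ((((∏ i, ε i ^ m (K₀ N) i) * (∏ i, ε i ^ c i) ^ (3 ^ N) : (𝓞 L)ˣ) : 𝓞 L) : L)
        = φ (((∏ i, ε i ^ m (K₀ N) i : (𝓞 L)ˣ) : 𝓞 L) : L) *
          φ (((∏ i, ε i ^ c i : (𝓞 L)ˣ) : 𝓞 L) : L) ^ (3 ^ N) := by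
      rw [← map_pow, ← map_mul]
      rfl
    rw [e1, inv_pow, mul_assoc, mul_inv_cancel₀ (pow_ne_zero _ h0), mul_one]
  -- the limit relations
  have hrel : ∀ i : Fin (Units.rank L), ∑ j, ((crd (ε j) i : ℤ) : PadicInt 3) * a j = 0 := by
    intro i
    rw [← norm_le_zero_iff]
    have hlim : Tendsto (fun N : ℕ => (3 : ℝ)⁻¹ ^ N) atTop (𝓝 0) :=
      tendsto_pow_atTop_nhds_zero_of_lt_one (by positivity) (by norm_num)
    refine ge_of_tendsto' hlim ?_
    · intro N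
      obtain ⟨g, hg⟩ := hroot N
      have h1 : ∑ j, m (K₀ N) j * crd (ε j) i = (3 ^ N : ℤ) * crd g i := by
        rw [← crd_prod, ← hg]
        have := crd_zpow g ((3 ^ N : ℕ) : ℤ) i
        rw [zpow_natCast] at this
        rw [this]
        push_cast
        ring
      have e : ∑ j, ((crd (ε j) i : ℤ) : PadicInt 3) * a j
          = (((3 ^ N : ℤ) * crd g i : ℤ) : PadicInt 3)
            - ∑ j, ((crd (ε j) i : ℤ) : PadicInt 3) * (((m (K₀ N) j : ℤ) : PadicInt 3) - a j) := by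
        rw [← h1]
        push_cast
        rw [← Finset.sum_sub_distrib]
        refine Finset.sum_congr rfl fun j _ => ?_
        ring
      rw [e]
      refine (nonarch_sub _ _).trans (max_le ?_ ?_)
      · push_cast
        rw [norm_mul]
        have h2 : ‖(3 : PadicInt 3) ^ N‖ = (3 : ℝ)⁻¹ ^ N := by
          have h5 : ‖(3 : PadicInt 3)‖ = (3 : ℝ)⁻¹ := by simpa using PadicInt.norm_p (p := 3)
          rw [norm_pow, h5]
        rw [h2]
        calc (3 : ℝ)⁻¹ ^ N * ‖((crd g i : ℤ) : PadicInt 3)‖ ≤ (3 : ℝ)⁻¹ ^ N * 1 :=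
              mul_le_mul_of_nonneg_left (PadicInt.norm_le_one _) (by positivity)
          _ = _ := mul_one _
      · refine IsUltrametricDist.norm_sum_le_of_forall_le_of_nonneg (by positivity) fun j _ => ?_
        rw [norm_mul]
        have h2 := hK₀ N (K₀ N) le_rfl j
        have h3 : (3 : ℝ) ^ (-(N : ℤ)) = (3 : ℝ)⁻¹ ^ N := by
          rw [zpow_neg, zpow_natCast, inv_pow]
        rw [h3] at h2
        calc _ ≤ 1 * (3 : ℝ)⁻¹ ^ N :=
              mul_le_mul (PadicInt.norm_le_one _) h2 (norm_nonneg _) zero_le_one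
          _ = _ := one_mul _
  -- conclusion
  by_contra hne
  obtain ⟨j₀, hj₀⟩ := Function.ne_iff.1 hne
  obtain ⟨z, hz0, hz⟩ := exists_int_solution (V := ℚ_[3]) (fun j => ((a j : PadicInt 3) : ℚ_[3]))
    (fun j i => crd (ε j) i) (by
      intro i
      have h1 := congrArg (fun x : PadicInt 3 => (x : ℚ_[3])) (hrel i)
      simp only [PadicInt.coe_zero] at h1
      rw [← h1, PadicInt.coe_sum]
      refine Finset.sum_congr rfl fun j _ => ?_
      rw [PadicInt.coe_mul, PadicInt.coe_intCast, Rat.smul_def, Rat.cast_intCast]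
      ) j₀ (by
      intro h0
      apply hj₀
      exact Subtype.ext h0)
  obtain ⟨k, hk, hk1⟩ := crd_torsion (∏ j, ε j ^ z j) (by
    intro i
    rw [crd_prod, ← hz i]
    refine Finset.sum_congr rfl fun j _ => ?_
    ring)
  have h2 := hind (fun j => z j * k) (by
    rw [← hk1, ← Finset.prod_pow]
    refine Finset.prod_congr rfl fun j _ => ?_
    rw [zpow_mul, zpow_natCast])
  have h3 := congrFun h2 j₀
  simp only [Pi.zero_apply, mul_eq_zero] at h3
  rcases h3 with h3 | h3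
  · exact hz0 h3
  · omega

end Pool.Agent.Leo3.H93
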